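import Mathlib
import Pool.Agent.Helper63.IMeagerMain

namespace Pool.Agent.Results.MP_fb02e9_lc.IMeager

open Pool.Agent.Helper63.IMeager

/-- The least size of a nonmeager independent family equals `non(meager)`. -/
theorem result : iMeager = nonMeager := iMeager_eq

end Pool.Agent.Results.MP_fb02e9_lc.IMeager
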